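import Pool.Agent.Helper96_LAX.Stmts

/-!
Squad LAX (MP_0a041d_co), module DEG: the degrees of what is left.
-/

set_option autoImplicit false

namespace Pool.Agent.LAX.H72

open Pool.Agent.LAX

theorem deg_aux {V : Type} [Finite V] (E : Set (V × V)) (k q w : ℕ) (K : ℕ → Set (V × V))
    (v : V) (hE : (out E v).ncard = k) (hsub : ∀ c < q, K c ⊆ E)
    (hdisj : ∀ c < q, ∀ d < q, c ≠ d → Disjoint (K c) (K d))
    (huniq : ∀ c < q, ∀ y y', (v, y) ∈ K c → (v, y') ∈ K c → y = y')
    (hw : {c | c < q ∧ v ∉ dom (K c)}.ncard ≤ w) :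
    k ≤ (out {a | a ∈ E ∧ ∀ c < q, a ∉ K c} v).ncard + q ∧
      (out {a | a ∈ E ∧ ∀ c < q, a ∉ K c} v).ncard + q ≤ k + w := by
  classical
  set L : Set (V × V) := {a | a ∈ E ∧ ∀ c < q, a ∉ K c} with hL
  let A : Set ℕ := {c | c < q ∧ v ∈ dom (K c)}
  let A' : Set ℕ := {c | c < q ∧ v ∉ dom (K c)}
  let B : Set V := {y | ∃ c < q, (v, y) ∈ K c}
  have hAf : A.Finite := (Set.finite_Iio q).subset fun c hc => hc.1
  have hA'f : A'.Finite := (Set.finite_Iio q).subset fun c hc => hc.1
  have hAB : A.ncard = B.ncard := by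
    have : Nonempty V := ⟨v⟩
    have hch : ∀ c, c ∈ A → ∃ y, (v, y) ∈ K c := fun c hc => hc.2
    choose! f hf using hch
    refine Set.ncard_congr (fun c _ => f c) (fun c hc => ⟨c, hc.1, hf c hc⟩) ?_ ?_
    · intro c d hc hd hcd
      by_contra hne
      have h1 := hf c hc
      have h2 := hf d hd
      have hcd' : f c = f d := hcd
      rw [hcd'] at h1
      exact Set.disjoint_left.1 (hdisj c hc.1 d hd.1 hne) h1 h2
    · rintro y ⟨c, hc, hy⟩
      exact ⟨c, ⟨hc, y, hy⟩, huniq c hc _ _ (hf c ⟨hc, y, hy⟩) hy⟩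
  have hAA : A.ncard + A'.ncard = q := by
    rw [← Set.ncard_union_eq (by
      rw [Set.disjoint_left]
      rintro c hc hc'
      exact hc'.2 hc.2) hAf hA'f]
    have : A ∪ A' = Set.Iio q := by
      ext c
      simp only [A, A', Set.mem_union, Set.mem_ofPred_eq, Set.mem_Iio]
      tauto
    rw [this, Set.ncard_eq_toFinset_card']
    simp
  have hLB : (out L v).ncard + B.ncard = k := by
    rw [← hE, ← Set.ncard_union_eq (by
      rw [Set.disjoint_left]
      rintro y hy ⟨c, hc, hyc⟩
      exact hy.2 c hc hyc) (Set.toFinite _) (Set.toFinite _)]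
    congr 1
    ext y
    constructor
    · rintro (hy | ⟨c, hc, hyc⟩)
      · exact hy.1
      · exact hsub c hc hyc
    · intro hy
      by_cases h : ∃ c < q, (v, y) ∈ K c
      · exact Or.inr h
      · push Not at h
        exact Or.inl ⟨hy, h⟩
  have hA'w : A'.ncard ≤ w := hw
  omega

/-- DEG -/
theorem deg : DegStmt := by
  classical
  intro V _ E k q g u w0 P b Hb n F S M Z w hReg hC hS hnP v
  -- every class is a partial injection
  have hrel : ∀ c, c < q → S c ⊆ F c ∧ dom (M c) ⊆ dom (S c) ∧ ran (M c) ⊆ ran (S c) ∧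
      PI (M c) := by
    intro c _
    by_cases h : c < n * P
    · exact ⟨(hS.rel c h).sub, (hS.rel c h).dm, (hS.rel c h).rn, (hS.rel c h).pi⟩
    · have := hS.unp c (not_lt.1 h)
      rw [this.1, this.2]
      refine ⟨Set.empty_subset _, subset_rfl, subset_rfl, ?_, ?_⟩
      · intro x y y' h
        exact absurd h (Set.notMem_empty _)
      · intro x y y' h
        exact absurd h (Set.notMem_empty _)
  have hsub : ∀ c < q, kc F S M c ⊆ E := by
    intro c hc a ha
    rcases ha with ha | ha
    · exact hC.sub c hc ha.1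
    · exact hS.sub c hc ha
  have hu1 : ∀ c < q, ∀ x y y', (x, y) ∈ kc F S M c → (x, y') ∈ kc F S M c → y = y' := by
    intro c hc x y y' h h'
    obtain ⟨hSF, hdm, _, hPI⟩ := hrel c hc
    have key : ∀ z z', (x, z) ∈ F c \ S c → (x, z') ∈ M c → False := by
      intro z z' hz hz'
      obtain ⟨t, ht⟩ := hdm ⟨z', hz'⟩
      have := (hC.pi c hc).1 x z t hz.1 (hSF ht)
      rw [← this] at ht
      exact hz.2 ht
    rcases h with h | h <;> rcases h' with h' | h'
    · exact (hC.pi c hc).1 x y y' h.1 h'.1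
    · exact (key _ _ h h').elim
    · exact (key _ _ h' h).elim
    · exact hPI.1 x y y' h h'
  have hu2 : ∀ c < q, ∀ x x' y, (x, y) ∈ kc F S M c → (x', y) ∈ kc F S M c → x = x' := by
    intro c hc x x' y h h'
    obtain ⟨hSF, _, hrn, hPI⟩ := hrel c hc
    have key : ∀ z z', (z, y) ∈ F c \ S c → (z', y) ∈ M c → False := by
      intro z z' hz hz'
      obtain ⟨t, ht⟩ := hrn ⟨z', hz'⟩
      have := (hC.pi c hc).2 z t y hz.1 (hSF ht)
      rw [← this] at ht
      exact hz.2 ht
    rcases h with h | h <;> rcases h' with h' | h'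
    · exact (hC.pi c hc).2 x x' y h.1 h'.1
    · exact (key _ _ h h').elim
    · exact (key _ _ h' h).elim
    · exact hPI.2 x x' y h h'
  constructor
  · have h := deg_aux E k q (w0 + w v) (kc F S M) v (hReg v).1 hsub hS.disj
      (fun c hc y y' => hu1 c hc v y y') (by
        have h1 : {c | c < q ∧ v ∉ dom (kc F S M c)} ⊆
            {c | c < q ∧ v ∈ Z c} ∪ {c | c < q ∧ v ∈ dom (S c) ∧ v ∉ dom (M c)} := by
          rintro c ⟨hc, hv⟩
          by_cases hz : v ∈ Z c
          · exact Or.inl ⟨hc, hz⟩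
          · obtain ⟨y, hy⟩ := (hC.cov c hc v hz).1
            have hyS : (v, y) ∈ S c := by
              by_contra hyS
              exact hv ⟨y, Or.inl ⟨hy, hyS⟩⟩
            refine Or.inr ⟨hc, ⟨y, hyS⟩, ?_⟩
            rintro ⟨z, hz⟩
            exact hv ⟨z, Or.inr hz⟩
        refine (Set.ncard_le_ncard h1 ((Set.finite_Iio q).subset ?_)).trans
          ((Set.ncard_union_le _ _).trans (add_le_add (hC.few v) (hS.unl v).1))
        rintro c (hc | hc)
        · exact hc.1
        · exact hc.1)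
    refine ⟨h.1, ?_⟩
    have := h.2
    rw [← add_assoc] at this
    exact this
  · have h := deg_aux (rv E) k q (w0 + w v) (fun c => rv (kc F S M c)) v (hReg v).2
      (fun c hc a ha => hsub c hc ha)
      (fun c hc d hd hcd => by
        rw [Set.disjoint_left]
        intro a ha hb
        exact Set.disjoint_left.1 (hS.disj c hc d hd hcd) ha hb)
      (fun c hc y y' h h' => hu2 c hc y y' v h h') (by
        have h1 : {c | c < q ∧ v ∉ dom (rv (kc F S M c))} ⊆
            {c | c < q ∧ v ∈ Z c} ∪ {c | c < q ∧ v ∈ ran (S c) ∧ v ∉ ran (M c)} := by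
          rintro c ⟨hc, hv⟩
          by_cases hz : v ∈ Z c
          · exact Or.inl ⟨hc, hz⟩
          · obtain ⟨y, hy⟩ := (hC.cov c hc v hz).2
            have hyS : (y, v) ∈ S c := by
              by_contra hyS
              exact hv ⟨y, Or.inl ⟨hy, hyS⟩⟩
            refine Or.inr ⟨hc, ⟨y, hyS⟩, ?_⟩
            rintro ⟨z, hz⟩
            exact hv ⟨z, Or.inr hz⟩
        refine (Set.ncard_le_ncard h1 ((Set.finite_Iio q).subset ?_)).trans
          ((Set.ncard_union_le _ _).trans (add_le_add (hC.few v) (hS.unl v).2))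
        rintro c (hc | hc)
        · exact hc.1
        · exact hc.1)
    refine ⟨h.1, ?_⟩
    have := h.2
    rw [← add_assoc] at this
    exact this

end Pool.Agent.LAX.H72
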