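import Pool.Agent.Helper96_LAX.Stmts
import Pool.Agent.Common_LLL.Basic

/-!
Squad LAX (MP_0a041d_co), module HL: halving by the local lemma.
-/

set_option autoImplicit false

namespace Pool.Agent.LAX.H72

open Pool.Agent.LAX

/-- HL -/
theorem hl (hHOE : HoeStmt) : HLStmt := by
  classical
  intro Z J _ _ N m lam hlam hm hN hz
  have := Fintype.ofFinite Z
  have := Fintype.ofFinite J
  by_cases hm0 : m = 0
  · refine ⟨∅, fun j => ?_⟩
    have h0 : (N j).ncard = 0 := by
      have := hN j
      omega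
    simp [h0]
  have hm1 : (1 : ℝ) ≤ m := by exact_mod_cast Nat.one_le_iff_ne_zero.2 hm0
  have hm2 : (0 : ℝ) < (m : ℝ) ^ 2 := by positivity
  have hm3 : (1 : ℝ) ≤ (m : ℝ) ^ 2 := by nlinarith
  let A : J → Finset (Z → Bool) := fun j => Finset.univ.filter (fun ω : Z → Bool =>
    √(lam * (N j).toFinset.card) <
      |(((N j).toFinset.filter (fun z => ω z = true)).card : ℝ) - (N j).toFinset.card / 2|)
  have hcard : ∀ j, (N j).toFinset.card = (N j).ncard := fun j =>
    (Set.ncard_eq_toFinset_card' (N j)).symm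
  have hA : ∀ j, ∀ ω ω' : Z → Bool, (∀ v ∈ (N j).toFinset, ω v = ω' v) → ω ∈ A j → ω' ∈ A j := by
    intro j ω ω' h hω
    simp only [A, Finset.mem_filter, Finset.mem_univ, true_and] at hω ⊢
    have : (N j).toFinset.filter (fun z => ω' z = true) =
        (N j).toFinset.filter (fun z => ω z = true) :=
      Finset.filter_congr fun z hz => by rw [h z hz]
    rw [this]
    exact hω
  have hnb : ∀ j, ((Finset.univ.filter (fun i => i ≠ j ∧
      ¬ Disjoint (N i).toFinset (N j).toFinset)).card : ℝ) ≤ (m : ℝ) ^ 2 := by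
    intro j
    have h1 : (Finset.univ.filter (fun i => i ≠ j ∧
        ¬ Disjoint (N i).toFinset (N j).toFinset)) ⊆
        (N j).toFinset.biUnion (fun z => Finset.univ.filter (fun i => z ∈ N i)) := by
      intro i hi
      simp only [Finset.mem_filter, Finset.mem_univ, true_and, Finset.not_disjoint_iff,
        Set.mem_toFinset] at hi
      obtain ⟨_, z, hz1, hz2⟩ := hi
      simp only [Finset.mem_biUnion, Set.mem_toFinset, Finset.mem_filter, Finset.mem_univ,
        true_and]
      exact ⟨z, hz2, hz1⟩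
    have h2 : ((N j).toFinset.biUnion (fun z => Finset.univ.filter (fun i => z ∈ N i))).card ≤
        (N j).toFinset.card * m := by
      refine Finset.card_biUnion_le_card_mul _ _ _ fun z _ => ?_
      have := hz z
      rw [Set.ncard_eq_toFinset_card'] at this
      refine le_trans (Finset.card_le_card ?_) this
      intro i hi
      simpa using hi
    have h3 : (N j).toFinset.card ≤ m := by
      rw [hcard]; exact hN j
    have h4 := (Finset.card_le_card h1).trans (h2.trans (Nat.mul_le_mul_right m h3))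
    have h5 : ((Finset.univ.filter (fun i => i ≠ j ∧
      ¬ Disjoint (N i).toFinset (N j).toFinset)).card : ℝ) ≤ ((m * m : ℕ) : ℝ) := by
      exact_mod_cast h4
    rw [pow_two]
    exact_mod_cast h5
  have hx : (1 : ℝ) / (2 * (m : ℝ) ^ 2) ≤ 1 / 2 := by
    rw [div_le_div_iff₀ (by positivity) (by norm_num)]
    linarith
  have hx0 : (0 : ℝ) < 1 / (2 * (m : ℝ) ^ 2) := by positivity
  obtain ⟨ω, hω⟩ := Common_LLL.lll_finite A (fun j => (N j).toFinset) hA
    (fun _ => 1 / (2 * (m : ℝ) ^ 2)) (fun _ => hx0.le) (fun _ => by linarith) (by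
      intro j
      have h1 := hHOE Z (N j).toFinset lam hlam
      refine h1.trans ?_
      refine mul_le_mul_of_nonneg_right ?_ (by positivity)
      rw [Finset.prod_const]
      set n := (Finset.univ.filter (fun i => i ≠ j ∧
        ¬ Disjoint (N i).toFinset (N j).toFinset)).card with hn
      have h2 := hnb j
      rw [← hn] at h2
      have h3 : (1 : ℝ) / 2 ≤ (1 - 1 / (2 * (m : ℝ) ^ 2)) ^ n := by
        have h4 := one_add_mul_le_pow (a := -(1 / (2 * (m : ℝ) ^ 2))) (by linarith) n
        have h5 : (n : ℝ) * (1 / (2 * (m : ℝ) ^ 2)) ≤ 1 / 2 := by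
          calc (n : ℝ) * (1 / (2 * (m : ℝ) ^ 2)) ≤ (m : ℝ) ^ 2 * (1 / (2 * (m : ℝ) ^ 2)) :=
                mul_le_mul_of_nonneg_right h2 hx0.le
            _ = 1 / 2 := by field_simp
        have h6 : 1 - 1 / (2 * (m : ℝ) ^ 2) = 1 + -(1 / (2 * (m : ℝ) ^ 2)) := by ring
        rw [h6]
        refine le_trans ?_ h4
        linarith
      have h7 : 2 * Real.exp (-2 * lam) ≤ 1 / (2 * (m : ℝ) ^ 2) * (1 / 2) := by
        have h8 : Real.exp (-2 * lam) = (Real.exp (2 * lam))⁻¹ := by
          rw [← Real.exp_neg]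
          congr 1
          ring
        rw [h8]
        have h9 : (Real.exp (2 * lam))⁻¹ ≤ (8 * (m : ℝ) ^ 2)⁻¹ :=
          inv_anti₀ (by positivity) hm
        calc 2 * (Real.exp (2 * lam))⁻¹ ≤ 2 * (8 * (m : ℝ) ^ 2)⁻¹ := by linarith
          _ = 1 / (2 * (m : ℝ) ^ 2) * (1 / 2) := by
            field_simp
            norm_num
      exact h7.trans (mul_le_mul_of_nonneg_left h3 hx0.le))
  refine ⟨{z | ω z = true}, fun j => ?_⟩
  have h1 := hω j
  simp only [A, Finset.mem_filter, Finset.mem_univ, true_and, not_lt] at h1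
  have h2 : (N j ∩ {z | ω z = true}).ncard =
      ((N j).toFinset.filter (fun z => ω z = true)).card := by
    rw [Set.ncard_eq_toFinset_card']
    congr 1
    ext z
    simp
  rw [h2, ← hcard]
  exact h1

end Pool.Agent.LAX.H72
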